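import Pool.Agent.helper81.UH.Spec

/-! Row uh:SPC (MP_a2a22c_al): the special pair -/

set_option autoImplicit false

namespace Pool.Agent.UH

open Matrix Pool.Agent.H48SL Pool.Agent.UG

theorem SPC_g {n : ℕ} (X : Fin (n + 1) → MQ (n + 2)) (h : ∃ u, dl X u ≠ 0) : ∃ g : SLZ (n + 2), dl X (yv g) ≠ 0 := by
  obtain ⟨M, hM⟩ : ∃ M : Matrix (Fin (n + 2)) (Fin (n + 2)) (MvPolynomial (Fin (n + 2)) ℚ), M =
      Matrix.of fun i j => Fin.cases (MvPolynomial.X i)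
        (fun j' => ∑ l, MvPolynomial.C (X j' i l) * MvPolynomial.X l) j := ⟨_, rfl⟩
  have hev : ∀ y, MvPolynomial.eval y M.det = dl X y := by
    intro y
    rw [RingHom.map_det]
    unfold dl
    congr 1
    ext i j
    rw [RingHom.mapMatrix_apply, Matrix.map_apply, hM]
    refine Fin.cases ?_ (fun j' => ?_) j
    · simp [NM]
    · simp [NM, mulVec, dotProduct]
  obtain ⟨u, hu⟩ := h
  have hne : M.det ≠ 0 := by
    intro h0
    apply hu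
    rw [← hev, h0, map_zero]
  obtain ⟨h, hh⟩ := PRM n M.det hne
  refine ⟨h⁻¹, ?_⟩
  unfold yv
  rw [inv_inv, ← hev]
  exact hh

theorem SPC_c0 {n : ℕ} (X : Fin n → MQ (n + 1)) (f y : Fin (n + 1) → ℚ) (hrow : ∀ j, f ᵥ* X j = 0)
    (hdl : dl X y ≠ 0) (hf : f ≠ 0) : f ⬝ᵥ y ≠ 0 := by
  intro h0
  apply hdl
  unfold dl
  rw [← Matrix.exists_vecMul_eq_zero_iff]
  refine ⟨f, hf, ?_⟩
  ext j
  refine Fin.cases ?_ (fun j' => ?_) j
  · exact h0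
  · have h1 : f ⬝ᵥ (X j' *ᵥ y) = 0 := by
      rw [dotProduct_mulVec, hrow, zero_dotProduct]
    exact h1

theorem SPC_dnv {n : ℕ} (φ : Fin (n + 1) → ℚ) : dn (vecMulVec (e0 n) φ) = 0 := by
  ext i j
  rw [dn_apply, vecMulVec_apply]
  unfold e0
  rw [Pi.single_eq_of_ne (Fin.succ_ne_zero i), zero_mul]
  rfl

theorem SPC (hFLG : FLG_stmt) : SPC_stmt := by
  intro n N A 𝔞 X f hn hD hf
  obtain ⟨n', rfl⟩ : ∃ n', n = n' + 2 := ⟨n - 2, by omega⟩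
  obtain ⟨g, hg⟩ := SPC_g X hD.ne
  have hrow : ∀ j, f ᵥ* X j = 0 := fun j => hD.row _ (hD.mem j)
  have hy : f ⬝ᵥ yv g ≠ 0 := SPC_c0 X f (yv g) hrow hg hf
  obtain ⟨F, hF⟩ : ∃ F : Fin (n' + 3) → ℚ, F = fh f g := ⟨_, rfl⟩
  have hFv : ∀ v, F ⬝ᵥ v = f ⬝ᵥ (qg g⁻¹ *ᵥ v) := by
    intro v
    rw [hF, fh, dotProduct_mulVec]
  have hF0 : F 0 ≠ 0 := by
    have h1 : F 0 = F ⬝ᵥ e0 (n' + 2) := by
      unfold e0
      rw [dotProduct_single_one]
    rw [h1, hFv]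
    exact hy
  have d10 : (1 : Fin (n' + 3)) ≠ 0 := by
    intro h; have := congrArg Fin.val h; simp at this
  have d20 : (2 : Fin (n' + 3)) ≠ 0 := by
    intro h
    have := congrArg Fin.val h
    have h2 : ((2 : Fin (n' + 3)) : ℕ) = 2 := rfl
    rw [h2] at this
    simp at this
  have d21 : (2 : Fin (n' + 3)) ≠ 1 := by
    intro h
    have := congrArg Fin.val h
    have h2 : ((2 : Fin (n' + 3)) : ℕ) = 2 := rfl
    have h3 : ((1 : Fin (n' + 3)) : ℕ) = 1 := rfl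
    rw [h2, h3] at this
    omega
  obtain ⟨E, hE⟩ : ∃ E : Fin (n' + 3) → ℚ, E = e0 (n' + 2) := ⟨_, rfl⟩
  have hE0 : E 0 = 1 := by rw [hE]; unfold e0; rw [Pi.single_eq_same]
  have hEi : ∀ i, i ≠ 0 → E i = 0 := fun i hi => by rw [hE]; unfold e0; rw [Pi.single_eq_of_ne hi]
  have hdE : ∀ v : Fin (n' + 3) → ℚ, v ⬝ᵥ E = v 0 := fun v => by rw [hE]; unfold e0; rw [dotProduct_single_one]
  obtain ⟨ψ, hψ⟩ : ∃ ψ : Fin (n' + 3) → ℚ, ψ = Pi.single 2 1 := ⟨_, rfl⟩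
  have hψd : ∀ v : Fin (n' + 3) → ℚ, ψ ⬝ᵥ v = v 2 := fun v => by rw [hψ, single_one_dotProduct]
  have hψ0 : ψ 0 = 0 := by rw [hψ, Pi.single_eq_of_ne d20.symm]
  have hψ1 : ψ 1 = 0 := by rw [hψ, Pi.single_eq_of_ne d21.symm]
  have hψ2 : ψ 2 = 1 := by rw [hψ, Pi.single_eq_same]
  obtain ⟨b, hb⟩ : ∃ b : Fin (n' + 3) → ℚ, b = Pi.single 1 1 - (F 1 / F 0) • E := ⟨_, rfl⟩
  obtain ⟨c, hc⟩ : ∃ c : Fin (n' + 3) → ℚ, c = Pi.single 2 1 - (F 2 / F 0) • E := ⟨_, rfl⟩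
  have hFb : F ⬝ᵥ b = 0 := by
    rw [hb, dotProduct_sub, dotProduct_single_one, dotProduct_smul, hdE, smul_eq_mul, div_mul_cancel₀ _ hF0, sub_self]
  have hFc : F ⬝ᵥ c = 0 := by
    rw [hc, dotProduct_sub, dotProduct_single_one, dotProduct_smul, hdE, smul_eq_mul, div_mul_cancel₀ _ hF0, sub_self]
  have hb1 : b 1 = 1 := by
    rw [hb, Pi.sub_apply, Pi.single_eq_same, Pi.smul_apply, hEi 1 d10, smul_zero, sub_zero]
  have hb2 : b 2 = 0 := by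
    rw [hb, Pi.sub_apply, Pi.single_eq_of_ne d21, Pi.smul_apply, hEi 2 d20, smul_zero, sub_zero]
  have hc2 : c 2 = 1 := by
    rw [hc, Pi.sub_apply, Pi.single_eq_same, Pi.smul_apply, hEi 2 d20, smul_zero, sub_zero]
  obtain ⟨z, hz⟩ : ∃ z : Fin (n' + 3) → ℚ, z = (-(F 0) ^ 2) • b := ⟨_, rfl⟩
  have hz1 : z 1 = -(F 0) ^ 2 := by rw [hz, Pi.smul_apply, hb1, smul_eq_mul, mul_one]
  have hz2 : z 2 = 0 := by rw [hz, Pi.smul_apply, hb2, smul_zero]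
  have hFz : F ⬝ᵥ z = 0 := by rw [hz, dotProduct_smul, hFb, smul_zero]
  obtain ⟨w, hw⟩ : ∃ w : Fin (n' + 3) → ℚ, w = qg g⁻¹ *ᵥ z := ⟨_, rfl⟩
  have hfw : f ⬝ᵥ w = 0 := by rw [hw, ← hFv, hFz]
  obtain ⟨k1, k2, k3⟩ := hFLG (n' + 2) N 𝔞 X f (yv g) w hD.la.nn hD.mem hD.row hg hy hfw
  obtain ⟨U, hU⟩ : ∃ U, U = qg g * U1 N X (yv g) w * qg g⁻¹ := ⟨_, rfl⟩
  obtain ⟨V, hV⟩ : ∃ V, V = qg g * U2 N X (yv g) w * qg g⁻¹ := ⟨_, rfl⟩
  have hUV : U * V = 1 := by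
    rw [hU, hV]
    calc qg g * U1 N X (yv g) w * qg g⁻¹ * (qg g * U2 N X (yv g) w * qg g⁻¹)
        = qg g * (U1 N X (yv g) w * (qg g⁻¹ * qg g) * U2 N X (yv g) w) * qg g⁻¹ := by
          simp only [Matrix.mul_assoc]
      _ = 1 := by rw [qg_inv_mul, Matrix.mul_one, k2, Matrix.mul_one, qg_mul_inv]
  have hVU : V * U = 1 := by
    rw [hU, hV]
    calc qg g * U2 N X (yv g) w * qg g⁻¹ * (qg g * U1 N X (yv g) w * qg g⁻¹)
        = qg g * (U2 N X (yv g) w * (qg g⁻¹ * qg g) * U1 N X (yv g) w) * qg g⁻¹ := by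
          simp only [Matrix.mul_assoc]
      _ = 1 := by rw [qg_inv_mul, Matrix.mul_one, k3, Matrix.mul_one, qg_mul_inv]
  have hUE : U *ᵥ E = E + z := by
    rw [hU, ← mulVec_mulVec, ← mulVec_mulVec]
    have h1 : qg g⁻¹ *ᵥ E = yv g := by rw [hE]; rfl
    rw [h1, k1, mulVec_add, ← h1, hw, mulVec_mulVec, mulVec_mulVec, qg_mul_inv, one_mulVec, one_mulVec]
  obtain ⟨p', hp'⟩ : ∃ p', p' = V *ᵥ E := ⟨_, rfl⟩
  obtain ⟨q', hq'⟩ : ∃ q', q' = ψ ᵥ* U := ⟨_, rfl⟩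
  have hUp : U *ᵥ p' = E := by rw [hp', mulVec_mulVec, hUV, one_mulVec]
  have hqV : q' ᵥ* V = ψ := by rw [hq', vecMul_vecMul, hUV, vecMul_one]
  have hqp : q' ⬝ᵥ p' = 0 := by
    rw [hq', ← dotProduct_mulVec, hUp, hdE, hψ0]
  have hq0 : q' 0 = 0 := by
    rw [← hdE q', hq', ← dotProduct_mulVec, hUE, hψd, Pi.add_apply, hz2, hEi 2 d20, add_zero]
  obtain ⟨p, hp⟩ : ∃ p : Fin (n' + 2) → ℚ, p = fun i => p' i.succ := ⟨_, rfl⟩
  obtain ⟨q, hq⟩ : ∃ q : Fin (n' + 2) → ℚ, q = fun i => q' i.succ := ⟨_, rfl⟩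
  have hqp2 : q ⬝ᵥ p = 0 := by
    have h1 : q' ⬝ᵥ p' = q' 0 * p' 0 + q ⬝ᵥ p := by
      rw [hp, hq]
      unfold dotProduct
      rw [Fin.sum_univ_succ]
    rw [hqp, hq0, zero_mul, zero_add] at h1
    exact h1.symm
  have hqne : q ≠ 0 := by
    intro h0
    have h1 : q' = 0 := by
      ext i
      refine Fin.cases hq0 (fun j => ?_) i
      have h2 := congrFun h0 j
      rw [hq] at h2
      exact h2
    rw [h1, zero_vecMul] at hqV
    rw [← hqV] at hψ2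
    exact zero_ne_one hψ2
  have hpne : p ≠ 0 := by
    intro h0
    have h1 : p' = (p' 0) • E := by
      ext i
      refine Fin.cases ?_ (fun j => ?_) i
      · rw [Pi.smul_apply, hE0, smul_eq_mul, mul_one]
      · rw [Pi.smul_apply, hEi _ (Fin.succ_ne_zero j), smul_zero]
        have h2 := congrFun h0 j
        rw [hp] at h2
        exact h2
    rw [h1, mulVec_smul, hUE] at hUp
    have h2 := congrFun hUp 1
    rw [Pi.smul_apply, Pi.add_apply, hEi 1 d10, hz1, zero_add, smul_eq_mul] at h2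
    have h3 : p' 0 = 0 := by
      rcases mul_eq_zero.mp h2 with h | h
      · exact h
      · exact absurd (pow_eq_zero_iff (two_ne_zero)|>.mp (neg_eq_zero.mp h)) hF0
    rw [h3, zero_smul] at hUp
    have h4 := congrFun hUp 0
    rw [hE0] at h4
    exact zero_ne_one h4
  obtain ⟨N1, P, hN1, hP⟩ := clear_denom p
  obtain ⟨N2, Q, hN2, hQ⟩ := clear_denom q
  obtain ⟨m, hm⟩ : ∃ m : ℤ, m = -(N1 * N2) := ⟨_, rfl⟩
  have hm0 : m ≠ 0 := by rw [hm]; exact neg_ne_zero.mpr (mul_ne_zero hN1 hN2)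
  have hmq : (m : ℚ) ≠ 0 := by exact_mod_cast hm0
  have hφ : (m • (Pi.single 2 1 : Fin (n' + 3) → ℤ)) ⬝ᵥ (Pi.single 0 1 : Fin (n' + 3) → ℤ) = 0 := by
    rw [dotProduct_single_one, Pi.smul_apply, Pi.single_eq_of_ne d20.symm, smul_zero]
  obtain ⟨k, hk⟩ : ∃ k : SLZ (n' + 3), k = tv (Pi.single 0 1) (m • (Pi.single 2 1 : Fin (n' + 3) → ℤ)) := ⟨_, rfl⟩
  obtain ⟨R, hR⟩ : ∃ R : MQ (n' + 3), R = vecMulVec E ((m : ℚ) • ψ) := ⟨_, rfl⟩
  have hkq : qg k = 1 + R := by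
    rw [hk, qg_tv hφ, castV_single, hR, hE]
    congr 2
    rw [hψ]
    ext i
    simp only [castV, Pi.smul_apply, smul_eq_mul]
    push_cast
    congr 1
    by_cases hi : i = 2
    · subst hi; simp
    · simp [hi]
  have hRR : R * R = 0 := by
    rw [hR, vecMulVec_mul_vecMulVec, smul_dotProduct, hdE, hψ0, smul_zero]
    simp
  have hkinv : qg k⁻¹ = 1 - R := by
    have h1 : qg k * (1 - R) = 1 := by
      rw [hkq, Matrix.mul_sub, Matrix.mul_one, Matrix.add_mul, Matrix.one_mul, hRR, add_zero, add_sub_cancel_right]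
    calc qg k⁻¹ = qg k⁻¹ * (qg k * (1 - R)) := by rw [h1, Matrix.mul_one]
      _ = 1 - R := by rw [← Matrix.mul_assoc, qg_inv_mul, Matrix.one_mul]
  have hRv : ∀ v : Fin (n' + 3) → ℚ, (1 - R) *ᵥ v = v - ((m : ℚ) * v 2) • E := by
    intro v
    rw [sub_mulVec, one_mulVec, hR, vecMulVec_mulVec, smul_dotProduct, hψd, smul_eq_mul]
    congr 1
    ext i
    simp [mul_comm]
  have hginv : qg (k * g)⁻¹ = qg g⁻¹ * (1 - R) := by rw [_root_.mul_inv_rev, qg_mul, hkinv]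
  have hyv : yv (k * g) = yv g := by
    unfold yv
    rw [hginv, ← mulVec_mulVec, ← hE, hRv, hEi 2 d20, mul_zero, zero_smul, sub_zero]
  have hfh : fh f (k * g) = F - ((m : ℚ) * F 0) • ψ := by
    unfold fh
    rw [hginv, ← vecMul_vecMul]
    have h1 : f ᵥ* qg g⁻¹ = F := by rw [hF]; rfl
    rw [h1, vecMul_sub, vecMul_one, hR, vecMul_vecMulVec, hdE, smul_smul]
    congr 2
    simp [mul_comm]
  have hHE : fh f (k * g) ⬝ᵥ E = F 0 := by
    rw [hfh, sub_dotProduct, hdE, smul_dotProduct, hdE, hψ0, smul_zero, sub_zero]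
  have hHb : fh f (k * g) ⬝ᵥ b = 0 := by
    rw [hfh, sub_dotProduct, hFb, smul_dotProduct, hψd, hb2, smul_zero, sub_zero]
  have hHc : fh f (k * g) ⬝ᵥ c = -((m : ℚ) * F 0) := by
    rw [hfh, sub_dotProduct, hFc, smul_dotProduct, hψd, hc2, smul_eq_mul, mul_one, zero_sub]
  have hzz : zz f (k * g) g E b c = (m : ℚ) • z := by
    unfold zz
    rw [← hF, hHE, hHb, hHc, hFb, hFc, hdE, hz, smul_smul]
    have e1 : (0 : ℚ) * 0 - -((m : ℚ) * F 0) * 0 = 0 := by ring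
    have e2 : -((m : ℚ) * F 0) * F 0 - F 0 * 0 = (m : ℚ) * -(F 0) ^ 2 := by ring
    have e3 : F 0 * (0 : ℚ) - 0 * F 0 = 0 := by ring
    rw [e1, e2, e3, zero_smul, zero_smul, zero_add, add_zero]
  have hw1 : (1 / (m : ℚ)) • (qg (k * g)⁻¹ *ᵥ zz f (k * g) g E b c) = w := by
    rw [hzz, mulVec_smul, smul_smul, one_div, inv_mul_cancel₀ hmq, one_smul, hginv, ← mulVec_mulVec, hRv, hz2,
      mul_zero, zero_smul, sub_zero, hw]
  have hw2 : (1 / (m : ℚ)) • (qg g⁻¹ *ᵥ zz f (k * g) g E b c) = w := by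
    rw [hzz, mulVec_smul, smul_smul, one_div, inv_mul_cancel₀ hmq, one_smul, hw]
  have hSS : SS N X f (k * g) g E b c (1 / (m : ℚ)) = (1 + R) * (1 - vecMulVec p' ((m : ℚ) • q')) := by
    unfold SS
    rw [hw1, hw2, hyv, ← hU, hginv, qg_mul, hkq]
    calc (1 + R) * qg g * U2 N X (yv g) w * (qg g⁻¹ * (1 - R)) * U
        = (1 + R) * ((qg g * U2 N X (yv g) w * qg g⁻¹) * (1 - R) * U) := by simp only [Matrix.mul_assoc]
      _ = (1 + R) * (1 - vecMulVec p' ((m : ℚ) • q')) := by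
        rw [← hV, Matrix.mul_sub, Matrix.mul_one, Matrix.sub_mul, hVU, hR, mul_vecMulVec, vecMulVec_mul, ← hp',
          smul_vecMul, ← hq']
  have hdn : dn (SS N X f (k * g) g E b c (1 / (m : ℚ))) = 1 - vecMulVec p ((m : ℚ) • q) := by
    rw [hSS, Matrix.add_mul, Matrix.one_mul, hR, vecMulVec_mul, hE, ← dnL_apply, map_add, dnL_apply, dnL_apply,
      SPC_dnv, add_zero, ← dnL_apply, map_sub, dnL_apply, dnL_apply, dn_one]
    congr 1
    ext i j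
    rw [dn_apply, vecMulVec_apply, vecMulVec_apply, hp, hq]
    rfl
  have hQP : Q ⬝ᵥ P = 0 := by
    have h1 : castV Q ⬝ᵥ castV P = 0 := by
      rw [hP, hQ, smul_dotProduct, dotProduct_smul, hqp2, smul_zero, smul_zero]
    have h2 : ((Q ⬝ᵥ P : ℤ) : ℚ) = castV Q ⬝ᵥ castV P := by
      simp [dotProduct, castV]
    rw [h1] at h2
    exact_mod_cast h2
  have hqgs : qg (tv P Q) = 1 - vecMulVec p ((m : ℚ) • q) := by
    rw [qg_tv hQP, hP, hQ, hm]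
    ext i j
    simp only [Matrix.add_apply, Matrix.sub_apply, vecMulVec_apply, Pi.smul_apply, smul_eq_mul]
    push_cast
    ring
  have hcP : castV P ≠ 0 := by
    rw [hP]
    exact smul_ne_zero (by exact_mod_cast hN1) hpne
  have hcQ : castV Q ≠ 0 := by
    rw [hQ]
    exact smul_ne_zero (by exact_mod_cast hN2) hqne
  refine ⟨k * g, g, E, b, c, 1 / (m : ℚ), tv P Q, ?_, hg, ?_, ?_, ?_⟩
  · rw [hyv]; exact hg
  · rw [hqgs, hdn]
  · intro h1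
    have h2 := qg_tv hQP
    rw [h1, qg_one, left_eq_add] at h2
    obtain ⟨i, hi⟩ := Function.ne_iff.mp hcP
    obtain ⟨j, hj⟩ := Function.ne_iff.mp hcQ
    have h3 := congrFun (congrFun h2 i) j
    rw [vecMulVec_apply] at h3
    exact (mul_ne_zero hi hj) h3
  · refine ⟨2, ?_⟩
    rw [qg_tv hQP, add_sub_cancel_left, pow_two, vecMulVec_mul_vecMulVec]
    have h1 : castV Q ⬝ᵥ castV P = 0 := by
      rw [hP, hQ, smul_dotProduct, dotProduct_smul, hqp2, smul_zero, smul_zero]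
    rw [h1]
    simp

end Pool.Agent.UH
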